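import Pool.Agent.Work.MP_3b4bb3_an.Main

/-!
Absolutely continuous extension measures do not force the Szego condition.
-/

set_option autoImplicit false

namespace Pool.Agent.Results.MP_3b4bb3_an.Disproof

open Pool.Agent.Work.MP_3b4bb3_an

universe u v

/-- For all complex Hilbert spaces `N`, `M` with `0 < dim N ≤ dim M < ∞` there is a function `χ` in
`𝔹_a(M,N)` (so all its extension measures `σ_ε` are absolutely continuous) which does not satisfy
the Szego condition `log det (I_M - χ* χ) ∈ L¹`. -/
theorem result (M : Type u) (N : Type v) [NormedAddCommGroup M] [InnerProductSpace ℂ M]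
    [FiniteDimensional ℂ M] [CompleteSpace M] [NormedAddCommGroup N] [InnerProductSpace ℂ N]
    [FiniteDimensional ℂ N] [CompleteSpace N]
    (hN : 0 < Module.finrank ℂ N) (hM : Module.finrank ℂ N ≤ Module.finrank ℂ M) :
    ∃ χ ∈ Ba M N, ¬ Szego χ :=
  main M N hN hM

end Pool.Agent.Results.MP_3b4bb3_an.Disproof
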